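import Pool.Agent.H17.VS.TargetsB

/-! TZV: the tangent space of the equations which vanish at the point. -/

set_option autoImplicit false

namespace Pool.Agent.H86.VS

open MvPolynomial SC Pool.Agent.H27.LV Pool.Agent.H17.VG Pool.Agent.H17.CI Pool.Agent.H17.VS

/-- the tangent space of the equations which vanish at the point -/
theorem pf_TZV (hSM : T_SMV) (_hUV : T_UVM) : T_TZV := by
  intro R K _ _ _ _ n ι e F D Z x hS hP B g hFr
  have hsm : ∀ (θ : Derivation R K K) (l : ι → K) (i : ι), θ (eval x (F i)) =
      eval x (smb F θ l i) - l i * eval x (F i) + ∑ j, θ (x j) * eval x (pderiv j (F i)) :=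
    fun θ l i => (hSM R K n ι e F θ 0 l 0 0 0 x).2.2 i
  have hon : ∀ i ∈ Z, eval x (F i) = 0 := fun i hi => (hP.on i).2 hi
  have hzero : smb F D 0 = 0 := by
    funext i
    simp [smb, hS.base i]
  have hDx : (fun i => D (x i)) ∈ TZ R Z F x := by
    refine ⟨⟨D, rfl⟩, ?_⟩
    intro i hi
    have h := hsm D 0 i
    rw [hon i hi, hzero] at h
    simpa using h.symm
  -- the velocities in terms of the coordinates in B
  have hx0 : ∀ θ : Derivation R K K, θ (x 0) = 0 := fun θ => by
    rw [hP.one]
    exact θ.map_one_eq_zero
  have hgr : ∀ (θ : Derivation R K K) (i : ι), ∑ j, θ (x j) * eval x (pderiv j (F i)) =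
      ∑ b : B, grB F x g i b * θ (x b.1.succ) := by
    intro θ i
    rw [Fin.sum_univ_succ, hx0, zero_mul, zero_add]
    unfold grB
    simp_rw [Finset.sum_mul]
    rw [Finset.sum_comm]
    refine Finset.sum_congr rfl fun a _ => ?_
    rw [hFr.rel θ a, Finset.sum_mul]
    refine Finset.sum_congr rfl fun b _ => ?_
    ring
  have hli : LinearIndependent K fun i : Z => grB F x g i.1 := by
    classical
    rw [Fintype.linearIndependent_iff]
    intro lam hlam i0
    have h1 : ∀ θ : Derivation R K K, ∑ i : Z, lam i * eval x (cD θ (F i.1)) = 0 := by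
      intro θ
      have h2 : ∀ i : Z, eval x (cD θ (F i.1)) = -∑ b : B, grB F x g i.1 b * θ (x b.1.succ) := by
        intro i
        have h3 := hsm θ 0 i.1
        rw [hon i.1 i.2, hgr] at h3
        simp only [smb, Pi.zero_apply, map_zero, zero_mul, add_zero, sub_zero] at h3
        linear_combination -h3
      simp_rw [h2, mul_neg, Finset.mul_sum]
      rw [Finset.sum_neg_distrib, neg_eq_zero, Finset.sum_comm]
      refine Finset.sum_eq_zero fun b _ => ?_
      have h4 := congrFun hlam b
      simp only [Finset.sum_apply, Pi.smul_apply, smul_eq_mul, Pi.zero_apply] at h4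
      calc ∑ i : Z, lam i * (grB F x g i.1 b * θ (x b.1.succ))
          = (∑ i : Z, lam i * grB F x g i.1 b) * θ (x b.1.succ) := by
            rw [Finset.sum_mul]
            refine Finset.sum_congr rfl fun i _ => ?_
            ring
        _ = 0 := by rw [h4, zero_mul]
    obtain ⟨θ, hθ⟩ := hS.surj (fun i => if i = i0.1 then X 0 ^ (e i + 1) else 0) (by
      intro i
      split_ifs
      · exact isHomogeneous_X_pow 0 (e i + 1)
      · exact isHomogeneous_zero _ _ _)
    have h5 := h1 θ
    rw [Finset.sum_eq_single i0] at h5
    · rw [hθ, if_pos rfl, map_pow, eval_X, hP.one, one_pow, mul_one] at h5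
      exact h5
    · intro i _ hi
      rw [hθ, if_neg (fun h => hi (Subtype.ext h)), map_zero, mul_zero]
    · intro h
      exact absurd (Finset.mem_univ _) h
  refine ⟨hDx, ?_, ?_, hli⟩
  · -- dimension
    classical
    set M : Matrix Z B K := Matrix.of fun i b => grB F x g i.1 b with hM
    have hrank : M.rank = Fintype.card Z := by
      apply LinearIndependent.rank_matrix
      exact hli
    have hrn := LinearMap.finrank_range_add_finrank_ker M.mulVecLin
    have hr2 : Module.finrank K (LinearMap.range M.mulVecLin) = Fintype.card Z := hrank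
    rw [hr2, Module.finrank_fintype_fun_eq_card, Fintype.card_coe, Fintype.card_coe] at hrn
    -- the embedding
    let E : (B → K) →ₗ[K] (Fin (n + 1) → K) :=
      { toFun := fun v => Fin.cons 0 (fun a => ∑ b, g a b * v b)
        map_add' := by
          intro v w
          funext j
          refine Fin.cases ?_ (fun a => ?_) j
          · simp
          · simp [mul_add, Finset.sum_add_distrib]
        map_smul' := by
          intro c v
          funext j
          refine Fin.cases ?_ (fun a => ?_) j
          · simp
          · simp only [Fin.cons_succ, Pi.smul_apply, smul_eq_mul, RingHom.id_apply,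
              Finset.mul_sum]
            refine Finset.sum_congr rfl fun b _ => ?_
            ring }
    have hE : ∀ θ : Derivation R K K, E (fun b : B => θ (x b.1.succ)) = fun j => θ (x j) := by
      intro θ
      funext j
      refine Fin.cases ?_ (fun a => ?_) j
      · exact (hx0 θ).symm
      · exact (hFr.rel θ a).symm
    have hEinj : Function.Injective E := by
      rw [← LinearMap.ker_eq_bot, LinearMap.ker_eq_bot']
      intro v hv
      obtain ⟨θ, hθ⟩ := hFr.surj v
      have h1 : v = fun b : B => θ (x b.1.succ) := by
        funext b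
        exact (hθ b).symm
      rw [h1, hE] at hv
      funext b
      have h2 := congrFun hv b.1.succ
      rw [h1]
      exact h2
    have hTZ : TZ R Z F x = Submodule.map E (LinearMap.ker M.mulVecLin) := by
      ext w
      constructor
      · rintro ⟨⟨θ, rfl⟩, hw⟩
        refine ⟨fun b : B => θ (x b.1.succ), ?_, hE θ⟩
        change M.mulVecLin _ = 0
        funext i
        have h1 := hw i.1 i.2
        rw [hgr] at h1
        exact h1
      · rintro ⟨v, hv, rfl⟩
        obtain ⟨θ, hθ⟩ := hFr.surj v
        have h1 : v = fun b : B => θ (x b.1.succ) := by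
          funext b
          exact (hθ b).symm
        rw [h1] at hv ⊢
        rw [hE]
        refine ⟨⟨θ, rfl⟩, fun i hi => ?_⟩
        rw [hgr]
        exact congrFun (show M.mulVecLin _ = 0 from hv) ⟨i, hi⟩
    rw [hTZ, ← (Submodule.equivMapOfInjective E hEinj _).finrank_eq]
    omega
  · intro W hW
    refine ⟨?_, Submodule.subset_span ⟨D, 0, by rw [hzero]; exact W.zero_mem, rfl⟩⟩
    refine Submodule.span_le.2 ?_
    rintro w ⟨θ, l, h1, rfl⟩
    refine ⟨⟨θ, rfl⟩, fun i hi => ?_⟩
    have h2 := hsm θ l i
    rw [hon i hi, hW _ h1 i hi] at h2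
    simpa using h2.symm

end Pool.Agent.H86.VS
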